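import Mathlib

/-!
Sums of dilations modulo 2: if an integer valued function `f` on the positive reals is odd at between `c T log T` and
`C T log T` points of `(0, T]`, then for every finite nonempty set `R` of positive reals the sum of the dilations
`g ↦ f (ρ g)`, `ρ ∈ R`, is odd at at least `c' T log T` points, `c'` depending on `R`, `c`, `C` only.
(Frobenius: in characteristic 2 the `2ⁿ`-th power of `1 + ∑ [ρ]` is `1 + ∑ [ρ^(2ⁿ)]`.)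
-/

open Set

namespace DL

/-- the number of odd values is additive under scaling -/
theorem scale_card (E : ℝ → Prop) {ρ : ℝ} (hρ : 0 < ρ) (T : ℝ) :
    {g : ℝ | 0 < g ∧ g ≤ T ∧ E (ρ * g)}.ncard = {g : ℝ | 0 < g ∧ g ≤ ρ * T ∧ E g}.ncard := by
  have e : {g : ℝ | 0 < g ∧ g ≤ ρ * T ∧ E g} = (fun g => ρ * g) '' {g : ℝ | 0 < g ∧ g ≤ T ∧ E (ρ * g)} := by
    ext g
    constructor
    · rintro ⟨h1, h2, h3⟩
      refine ⟨ρ⁻¹ * g, ⟨by positivity, ?_, ?_⟩, ?_⟩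
      · rw [inv_mul_le_iff₀ hρ]
        exact h2
      · rwa [mul_inv_cancel_left₀ hρ.ne']
      · simp only
        rw [mul_inv_cancel_left₀ hρ.ne']
    · rintro ⟨x, ⟨h1, h2, h3⟩, rfl⟩
      exact ⟨mul_pos hρ h1, mul_le_mul_of_nonneg_left h2 hρ.le, h3⟩
  rw [e, Set.ncard_image_of_injective _ (mul_right_injective₀ hρ.ne')]

/-- finiteness of odd sets under scaling -/
theorem scale_fin {f : ℝ → ℤ} (hf : ∀ T : ℝ, {g : ℝ | 0 < g ∧ g ≤ T ∧ Odd (f g)}.Finite) {ρ : ℝ} (hρ : 0 < ρ) (T : ℝ) :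
    {g : ℝ | 0 < g ∧ g ≤ T ∧ Odd (f (ρ * g))}.Finite := by
  refine Set.Finite.subset ((hf (ρ * T)).preimage (f := fun g => ρ * g) (mul_right_injective₀ hρ.ne').injOn) ?_
  rintro g ⟨h1, h3, h4⟩
  exact ⟨mul_pos hρ h1, mul_le_mul_of_nonneg_left h3 hρ.le, h4⟩

/-- the square of a sum of dilations modulo 2 -/
theorem sq_sum (R : Finset ℝ) (F : ℝ → ZMod 2) :
    ∑ σ ∈ R, ∑ ρ ∈ R, F (ρ * σ) = ∑ σ ∈ R, F (σ ^ 2) := by
  classical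
  have e1 : ∑ σ ∈ R, ∑ ρ ∈ R, F (ρ * σ) = ∑ x ∈ R ×ˢ R, F (x.2 * x.1) :=
    (Finset.sum_product R R (fun x => F (x.2 * x.1))).symm
  rw [e1, ← Finset.diag_union_offDiag R, Finset.sum_union (Finset.disjoint_diag_offDiag R)]
  have h : ∑ x ∈ R.offDiag, F (x.2 * x.1) = 0 := by
    refine Finset.sum_involution (fun x _ => x.swap) ?_ ?_ ?_ ?_
    · intro x _
      simp only [Prod.fst_swap, Prod.snd_swap]
      rw [mul_comm x.1 x.2]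
      exact CharTwo.add_self_eq_zero _
    · intro x hx _ h
      have h1 := (Finset.mem_offDiag.1 hx).2.2
      exact h1 (congrArg Prod.snd h)
    · intro x hx
      have h1 := Finset.mem_offDiag.1 hx
      exact Finset.mem_offDiag.2 ⟨h1.2.1, h1.1, fun h => h1.2.2 h.symm⟩
    · intro x _
      exact Prod.swap_swap x
  rw [h, add_zero, Finset.sum_diag]
  exact Finset.sum_congr rfl fun x _ => by rw [pow_two]

/-- an odd sum has an odd term -/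
theorem odd_term {ι : Type*} (s : Finset ι) (F : ι → ℤ) (h : Odd (∑ i ∈ s, F i)) : ∃ i ∈ s, Odd (F i) := by
  by_contra hc
  push Not at hc
  refine (Int.not_even_iff_odd.2 h) (Finset.even_sum _ ?_)
  intro i hi
  exact Int.not_odd_iff_even.1 (hc i hi)

theorem count_union {ι : Type*} (s : Finset ι) (A : Set ℝ) (B : ι → Set ℝ) (hB : ∀ i ∈ s, (B i).Finite)
    (h : A ⊆ ⋃ i ∈ s, B i) : (A.ncard : ℝ) ≤ ∑ i ∈ s, ((B i).ncard : ℝ) := by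
  have h1 : (⋃ i ∈ s, B i).Finite := s.finite_toSet.biUnion fun i hi => hB i hi
  have h2 := (Set.ncard_le_ncard h h1).trans (Finset.set_ncard_biUnion_le s B)
  exact_mod_cast h2

/-- the case `max R = 1` -/
theorem dil_one (R : Finset ℝ) (h1 : (1 : ℝ) ∈ R) (hR : ∀ ρ ∈ R, 0 < ρ ∧ ρ ≤ 1) (c C : ℝ) (hc : 0 < c) (hC : 0 < C) :
    ∃ c' : ℝ, 0 < c' ∧ ∃ A : ℝ, 1 ≤ A ∧ ∀ (f : ℝ → ℤ) (T₀ : ℝ), 2 ≤ T₀ →
      (∀ T : ℝ, {g : ℝ | 0 < g ∧ g ≤ T ∧ Odd (f g)}.Finite) →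
      (∀ T : ℝ, T₀ ≤ T → c * (T * Real.log T) ≤ ({g : ℝ | 0 < g ∧ g ≤ T ∧ Odd (f g)}.ncard : ℝ)) →
      (∀ T : ℝ, T₀ ≤ T → ({g : ℝ | 0 < g ∧ g ≤ T ∧ Odd (f g)}.ncard : ℝ) ≤ C * (T * Real.log T)) →
      ∀ T : ℝ, A * T₀ ≤ T →
        c' * (T * Real.log T) ≤ ({g : ℝ | 0 < g ∧ g ≤ T ∧ Odd (∑ ρ ∈ R, f (ρ * g))}.ncard : ℝ) := by
  classical
  set Q : Finset ℝ := R.erase 1 with hQ
  have hQ1 : ∀ ρ ∈ Q, 0 < ρ ∧ ρ < 1 := by
    intro ρ hρ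
    rw [hQ, Finset.mem_erase] at hρ
    obtain ⟨h2, h3⟩ := hR ρ hρ.2
    exact ⟨h2, lt_of_le_of_ne h3 hρ.1⟩
  -- the exponent
  obtain ⟨n, hn⟩ : ∃ n : ℕ, C * ∑ ρ ∈ Q, ρ ^ (2 ^ n) ≤ c / 2 := by
    have hlim : Filter.Tendsto (fun n : ℕ => C * ∑ ρ ∈ Q, ρ ^ (2 ^ n)) Filter.atTop (nhds (C * ∑ ρ ∈ Q, (0 : ℝ))) := by
      refine Filter.Tendsto.const_mul _ (tendsto_finsetSum _ fun ρ hρ => ?_)
      have h2 := tendsto_pow_atTop_nhds_zero_of_lt_one (hQ1 ρ hρ).1.le (hQ1 ρ hρ).2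
      exact h2.comp (tendsto_pow_atTop_atTop_of_one_lt (by norm_num : (1 : ℕ) < 2))
    rw [Finset.sum_const_zero, mul_zero] at hlim
    obtain ⟨n, hn⟩ := (hlim.eventually_lt_const (by positivity : (0 : ℝ) < c / 2)).exists
    exact ⟨n, hn.le⟩
  have hcard : 0 < (R.card : ℝ) := by
    exact_mod_cast Finset.card_pos.2 ⟨1, h1⟩
  -- smallest dilation
  obtain ⟨δ, hδ, hδ1, hδQ⟩ : ∃ δ : ℝ, 0 < δ ∧ δ ≤ 1 ∧ ∀ ρ ∈ Q, δ ≤ ρ ^ (2 ^ n) := by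
    have hne : (insert (1 : ℝ) (Q.image fun ρ => ρ ^ (2 ^ n))).Nonempty := Finset.insert_nonempty _ _
    refine ⟨(insert (1 : ℝ) (Q.image fun ρ => ρ ^ (2 ^ n))).min' hne, ?_, ?_, ?_⟩
    · rw [Finset.lt_min'_iff]
      intro y hy
      rcases Finset.mem_insert.1 hy with rfl | hy
      · exact one_pos
      · obtain ⟨ρ, hρ, rfl⟩ := Finset.mem_image.1 hy
        exact pow_pos (hQ1 ρ hρ).1 _
    · exact Finset.min'_le _ _ (Finset.mem_insert_self _ _)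
    · intro ρ hρ
      exact Finset.min'_le _ _ (Finset.mem_insert_of_mem (Finset.mem_image_of_mem _ hρ))
  refine ⟨c / 2 / (R.card : ℝ) ^ n, by positivity, δ⁻¹, (one_le_inv₀ hδ).2 hδ1, ?_⟩
  intro f T₀ hT₀ hfin hlow hup T hT
  have hT0 : T₀ ≤ δ * T := by
    rw [inv_mul_le_iff₀ hδ] at hT
    exact hT
  have hT1 : T₀ ≤ T := by
    have : T₀ ≤ δ⁻¹ * T₀ := le_mul_of_one_le_left (by linarith) ((one_le_inv₀ hδ).2 hδ1)
    linarith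
  have hTpos : 0 < T := by linarith
  have hlog : 0 ≤ Real.log T := Real.log_nonneg (by linarith)
  -- the sums of dilations by `2ⁿ`-th powers
  obtain ⟨K, hK⟩ : ∃ K : ℕ → ℝ → ℤ, ∀ m g, K m g = ∑ ρ ∈ R, f (ρ ^ (2 ^ m) * g) := ⟨_, fun _ _ => rfl⟩
  have hKfin : ∀ m (T : ℝ), {g : ℝ | 0 < g ∧ g ≤ T ∧ Odd (K m g)}.Finite := by
    intro m T
    refine (R.finite_toSet.biUnion fun ρ hρ => scale_fin hfin (pow_pos (hR ρ hρ).1 (2 ^ m)) T).subset ?_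
    rintro g ⟨h2, h3, h4⟩
    rw [hK] at h4
    obtain ⟨ρ, hρ, h5⟩ := odd_term _ _ h4
    exact Set.mem_biUnion (by exact_mod_cast hρ) ⟨h2, h3, h5⟩
  have hstep : ∀ m g, ((K (m + 1) g : ℤ) : ZMod 2) = ∑ σ ∈ R, ((K m (σ ^ (2 ^ m) * g) : ℤ) : ZMod 2) := by
    intro m g
    have h2 := sq_sum R (fun x => ((f (x ^ (2 ^ m) * g) : ℤ) : ZMod 2))
    simp only [hK]
    push_cast
    refine Eq.trans (Finset.sum_congr rfl fun σ _ => ?_) h2.symm |>.trans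
      (Finset.sum_congr rfl fun σ _ => Finset.sum_congr rfl fun ρ _ => ?_)
    · rw [← pow_mul, pow_succ']
    · rw [mul_pow, mul_assoc]
  have hbstep : ∀ m, ({g : ℝ | 0 < g ∧ g ≤ T ∧ Odd (K (m + 1) g)}.ncard : ℝ) ≤
      (R.card : ℝ) * ({g : ℝ | 0 < g ∧ g ≤ T ∧ Odd (K m g)}.ncard : ℝ) := by
    intro m
    have h2 := count_union R {g : ℝ | 0 < g ∧ g ≤ T ∧ Odd (K (m + 1) g)}
      (fun σ => {g : ℝ | 0 < g ∧ g ≤ T ∧ Odd (K m (σ ^ (2 ^ m) * g))})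
      (fun σ hσ => scale_fin (hKfin m) (pow_pos (hR σ hσ).1 (2 ^ m)) T) ?_
    · refine h2.trans ?_
      rw [← nsmul_eq_mul, ← Finset.sum_const]
      refine Finset.sum_le_sum fun σ hσ => ?_
      rw [scale_card (fun x => Odd (K m x)) (pow_pos (hR σ hσ).1 (2 ^ m)) T]
      have h3 : {g : ℝ | 0 < g ∧ g ≤ σ ^ (2 ^ m) * T ∧ Odd (K m g)} ⊆ {g : ℝ | 0 < g ∧ g ≤ T ∧ Odd (K m g)} := by
        rintro g ⟨h4, h5, h6⟩
        exact ⟨h4, h5.trans (mul_le_of_le_one_left hTpos.le (pow_le_one₀ (hR σ hσ).1.le (hR σ hσ).2)), h6⟩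
      exact_mod_cast Set.ncard_le_ncard h3 (hKfin m T)
    · rintro g ⟨h4, h5, h6⟩
      have h7 : Odd (∑ σ ∈ R, K m (σ ^ (2 ^ m) * g)) := by
        rw [← ZMod.intCast_eq_one_iff_odd] at h6 ⊢
        rw [hstep] at h6
        push_cast
        exact h6
      obtain ⟨σ, hσ, h8⟩ := odd_term _ _ h7
      exact Set.mem_biUnion (by exact_mod_cast hσ) ⟨h4, h5, h8⟩
  have hb : ∀ m, ({g : ℝ | 0 < g ∧ g ≤ T ∧ Odd (K m g)}.ncard : ℝ) ≤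
      (R.card : ℝ) ^ m * ({g : ℝ | 0 < g ∧ g ≤ T ∧ Odd (K 0 g)}.ncard : ℝ) := by
    intro m
    induction m with
    | zero => rw [pow_zero, one_mul]
    | succ m ih =>
      refine (hbstep m).trans ?_
      rw [pow_succ', mul_assoc]
      exact mul_le_mul_of_nonneg_left ih hcard.le
  have hK0 : {g : ℝ | 0 < g ∧ g ≤ T ∧ Odd (K 0 g)} = {g : ℝ | 0 < g ∧ g ≤ T ∧ Odd (∑ ρ ∈ R, f (ρ * g))} := by
    ext g
    rw [Set.mem_ofPred_eq, Set.mem_ofPred_eq, hK]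
    simp only [pow_zero, pow_one]
  rw [← hK0]
  -- `f` is the sum of `K n` and the dilations by the `ρ^(2ⁿ)`, `ρ ∈ Q`
  have hfK : ∀ g, K n g = f g + ∑ ρ ∈ Q, f (ρ ^ (2 ^ n) * g) := by
    intro g
    rw [hK, hQ, ← Finset.add_sum_erase R _ h1, one_pow, one_mul]
  have hsub := count_union (insert none (Q.image some)) {g : ℝ | 0 < g ∧ g ≤ T ∧ Odd (f g)}
    (fun i : Option ℝ => match i with
      | none => {g : ℝ | 0 < g ∧ g ≤ T ∧ Odd (K n g)}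
      | some ρ => {g : ℝ | 0 < g ∧ g ≤ T ∧ Odd (f (ρ ^ (2 ^ n) * g))}) ?_ ?_
  · rw [Finset.sum_insert (by simp), Finset.sum_image (by intro a _ b _ h; exact Option.some.inj h)] at hsub
    simp only at hsub
    have h2 : ∑ ρ ∈ Q, ({g : ℝ | 0 < g ∧ g ≤ T ∧ Odd (f (ρ ^ (2 ^ n) * g))}.ncard : ℝ) ≤ c / 2 * (T * Real.log T) := by
      have h3 : ∀ ρ ∈ Q, ({g : ℝ | 0 < g ∧ g ≤ T ∧ Odd (f (ρ ^ (2 ^ n) * g))}.ncard : ℝ) ≤
          C * ρ ^ (2 ^ n) * (T * Real.log T) := by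
        intro ρ hρ
        have hp : 0 < ρ ^ (2 ^ n) := pow_pos (hQ1 ρ hρ).1 _
        have hp1 : ρ ^ (2 ^ n) ≤ 1 := pow_le_one₀ (hQ1 ρ hρ).1.le (hQ1 ρ hρ).2.le
        rw [scale_card (fun x => Odd (f x)) hp T]
        have h4 : T₀ ≤ ρ ^ (2 ^ n) * T := hT0.trans (mul_le_mul_of_nonneg_right (hδQ ρ hρ) hTpos.le)
        refine (hup _ h4).trans ?_
        have h5 : Real.log (ρ ^ (2 ^ n) * T) ≤ Real.log T :=
          Real.log_le_log (by positivity) (mul_le_of_le_one_left hTpos.le hp1)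
        calc C * (ρ ^ (2 ^ n) * T * Real.log (ρ ^ (2 ^ n) * T)) ≤ C * (ρ ^ (2 ^ n) * T * Real.log T) := by gcongr
          _ = _ := by ring
      refine (Finset.sum_le_sum h3).trans ?_
      rw [← Finset.sum_mul, ← Finset.mul_sum]
      exact mul_le_mul_of_nonneg_right hn (by positivity)
    have h3 := hlow T hT1
    have h4 := hb n
    have h5 : c / 2 * (T * Real.log T) ≤ (R.card : ℝ) ^ n * ({g : ℝ | 0 < g ∧ g ≤ T ∧ Odd (K 0 g)}.ncard : ℝ) := by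
      linarith
    rw [div_mul_eq_mul_div, div_le_iff₀ (by positivity)]
    linarith
  · intro i hi
    rcases i with _ | ρ
    · exact hKfin n T
    · have hρ : ρ ∈ Q := by simpa using hi
      exact scale_fin hfin (pow_pos (hQ1 ρ hρ).1 _) T
  · rintro g ⟨h2, h3, h4⟩
    by_cases h5 : Odd (K n g)
    · exact Set.mem_biUnion (x := none) (by simp) ⟨h2, h3, h5⟩
    · have h6 : Odd (∑ ρ ∈ Q, f (ρ ^ (2 ^ n) * g)) := by
        rw [Int.not_odd_iff_even, hfK] at h5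
        exact (Int.even_add'.1 h5).1 h4
      obtain ⟨ρ, hρ, h7⟩ := odd_term _ _ h6
      exact Set.mem_biUnion (x := some ρ) (by simpa using hρ) ⟨h2, h3, h7⟩

/-- every finite nonempty set of positive dilations -/
theorem dil (R : Finset ℝ) (hne : R.Nonempty) (hR : ∀ ρ ∈ R, 0 < ρ) (c C : ℝ) (hc : 0 < c) (hC : 0 < C) :
    ∃ c' : ℝ, 0 < c' ∧ ∀ (f : ℝ → ℤ) (T₀ : ℝ), 2 ≤ T₀ →
      (∀ T : ℝ, {g : ℝ | 0 < g ∧ g ≤ T ∧ Odd (f g)}.Finite) →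
      (∀ T : ℝ, T₀ ≤ T → c * (T * Real.log T) ≤ ({g : ℝ | 0 < g ∧ g ≤ T ∧ Odd (f g)}.ncard : ℝ)) →
      (∀ T : ℝ, T₀ ≤ T → ({g : ℝ | 0 < g ∧ g ≤ T ∧ Odd (f g)}.ncard : ℝ) ≤ C * (T * Real.log T)) →
      ∃ T₁ : ℝ, 2 ≤ T₁ ∧ ∀ T : ℝ, T₁ ≤ T →
        c' * (T * Real.log T) ≤ ({g : ℝ | 0 < g ∧ g ≤ T ∧ Odd (∑ ρ ∈ R, f (ρ * g))}.ncard : ℝ) := by
  classical
  obtain ⟨ρ₀, hρ₀, hmax⟩ : ∃ ρ₀ ∈ R, ∀ ρ ∈ R, ρ ≤ ρ₀ := ⟨R.max' hne, R.max'_mem hne, fun ρ hρ => R.le_max' ρ hρ⟩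
  have h0 : 0 < ρ₀ := hR ρ₀ hρ₀
  have hinj : Function.Injective fun ρ : ℝ => ρ / ρ₀ := fun a b h => (div_left_inj' h0.ne').1 h
  obtain ⟨c', hc', A, hA, h⟩ := dil_one (R.image fun ρ => ρ / ρ₀)
    (Finset.mem_image.2 ⟨ρ₀, hρ₀, div_self h0.ne'⟩) (by
      intro ρ hρ
      obtain ⟨σ, hσ, rfl⟩ := Finset.mem_image.1 hρ
      exact ⟨div_pos (hR σ hσ) h0, (div_le_one h0).2 (hmax σ hσ)⟩) c C hc hC
  refine ⟨c' * ρ₀ / 2, by positivity, fun f T₀ hT₀ hfin hlow hup => ?_⟩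
  refine ⟨max 2 (max (ρ₀⁻¹ * (A * T₀)) ((ρ₀ ^ 2)⁻¹)), le_max_left _ _, fun T hT => ?_⟩
  have h2 : 2 ≤ T := (le_max_left _ _).trans hT
  have h3 : ρ₀⁻¹ * (A * T₀) ≤ T := (le_max_left _ _).trans ((le_max_right _ _).trans hT)
  have h4 : (ρ₀ ^ 2)⁻¹ ≤ T := (le_max_right _ _).trans ((le_max_right _ _).trans hT)
  have hT0 : 0 < T := by linarith
  have hlog : 0 ≤ Real.log T := Real.log_nonneg (by linarith)
  have h5 : A * T₀ ≤ ρ₀ * T := by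
    rwa [inv_mul_le_iff₀ h0] at h3
  have h6 := h f T₀ hT₀ hfin hlow hup (ρ₀ * T) h5
  have e : {g : ℝ | 0 < g ∧ g ≤ T ∧ Odd (∑ ρ ∈ R, f (ρ * g))} = {g : ℝ | 0 < g ∧ g ≤ T ∧
      (fun x => Odd (∑ ρ ∈ R.image (fun ρ => ρ / ρ₀), f (ρ * x))) (ρ₀ * g)} := by
    ext g
    rw [Set.mem_ofPred_eq, Set.mem_ofPred_eq]
    simp only
    rw [Finset.sum_image fun a _ b _ hab => hinj hab]
    have e2 : ∀ ρ ∈ R, f (ρ / ρ₀ * (ρ₀ * g)) = f (ρ * g) := by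
      intro ρ _
      congr 1
      field_simp
    rw [Finset.sum_congr rfl e2]
  rw [e, scale_card (fun x => Odd (∑ ρ ∈ R.image (fun ρ => ρ / ρ₀), f (ρ * x))) h0 T]
  refine le_trans ?_ h6
  have h7 : Real.log T / 2 ≤ Real.log (ρ₀ * T) := by
    rw [Real.log_mul h0.ne' hT0.ne']
    have h8 := Real.log_le_log (by positivity) h4
    rw [Real.log_inv, Real.log_pow] at h8
    push_cast at h8
    linarith
  calc c' * ρ₀ / 2 * (T * Real.log T) = c' * (ρ₀ * T * (Real.log T / 2)) := by ring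
    _ ≤ c' * (ρ₀ * T * Real.log (ρ₀ * T)) := by gcongr

end DL
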