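import Mathlib
import Pool.Agent.Lib.MP_0f5a55_nt.DL.Count
import Pool.Agent.Lib.MP_0f5a55_nt.DL.Dil

/-!
Upper bound, with an absolute constant, for the sum of the multiplicities of the critical zeros of `L(s, χ)` up to height
`T` (Jensen's inequality with multiplicities).
-/

open Complex Filter Topology Set
open scoped ComplexConjugate

namespace DL

/-- zeros with multiplicities in a disc and the value at the centre -/
theorem blm (R r M : ℝ) (c : ℂ) (hr : 0 < r) (hrR : r < R) : ∀ (n : ℕ) (A : Finset ℂ) (m : ℂ → ℕ) (f : ℂ → ℂ),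
    Differentiable ℂ f → (∀ z : ℂ, ‖z - c‖ = R → ‖f z‖ ≤ M) →
    (∀ a ∈ A, (m a : ℕ∞) ≤ analyticOrderAt f a ∧ ‖a - c‖ ≤ r) → ∑ a ∈ A, m a = n → ‖f c‖ ≤ M * (r / R) ^ n := by
  classical
  have hR : 0 < R := hr.trans hrR
  intro n
  induction n with
  | zero =>
    intro A m f hf hM _ _
    rw [pow_zero, mul_one]
    have hd : DiffContOnCl ℂ f (Metric.ball c R) := hf.diffContOnCl
    refine Complex.norm_le_of_forall_mem_frontier_norm_le Metric.isBounded_ball hd ?_
      (subset_closure (Metric.mem_ball_self hR))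
    intro z hz
    rw [frontier_ball c hR.ne', mem_sphere_iff_norm] at hz
    exact hM z hz
  | succ n ih =>
    intro A m f hf hM hA hn
    obtain ⟨a, haA, hma⟩ : ∃ a ∈ A, m a ≠ 0 := by
      by_contra hc
      push Not at hc
      rw [Finset.sum_eq_zero hc] at hn
      omega
    obtain ⟨hoa, har⟩ := hA a haA
    have hfa : f a = 0 := by
      by_contra h0
      rw [(hf.analyticAt a).analyticOrderAt_eq_zero.2 h0] at hoa
      exact hma (by exact_mod_cast nonpos_iff_eq_zero.1 hoa)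
    have hM0 : 0 ≤ M := by
      have h1 := hM (c + R) (by simp [abs_of_pos hR])
      exact (norm_nonneg _).trans h1
    by_cases hca : c = a
    · rw [hca, hfa, norm_zero]
      positivity
    have hds : Differentiable ℂ (dslope f a) := by
      rw [← differentiableOn_univ, Complex.differentiableOn_dslope univ_mem]
      exact hf.differentiableOn
    set w : ℂ → ℂ := fun z => ((R : ℂ) ^ 2 - conj (a - c) * (z - c)) / R with hw
    have hwd : Differentiable ℂ w := by
      rw [hw]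
      fun_prop
    set g : ℂ → ℂ := fun z => dslope f a z * w z with hg
    have hgd : Differentiable ℂ g := hds.mul hwd
    have hgM : ∀ z : ℂ, ‖z - c‖ = R → ‖g z‖ ≤ M := by
      intro z hz
      have hza : z ≠ a := by
        rintro rfl
        linarith
      have hza0 : z - a ≠ 0 := sub_ne_zero.mpr hza
      have e1 : (R : ℂ) ^ 2 - conj (a - c) * (z - c) = (z - c) * conj (z - a) := by
        have e2 : (R : ℂ) ^ 2 = (z - c) * conj (z - c) := by
          rw [Complex.mul_conj, Complex.normSq_eq_norm_sq, hz]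
          push_cast
          rfl
        rw [e2]
        simp only [map_sub]
        ring
      have e3 : ‖g z‖ = ‖f z‖ := by
        rw [hg, hw]
        simp only
        rw [norm_mul, dslope_of_ne _ hza, e1, norm_div, norm_mul, hz, slope_def_field, hfa, sub_zero,
          norm_div, RCLike.norm_conj, Complex.norm_real, Real.norm_of_nonneg hR.le]
        have : ‖z - a‖ ≠ 0 := norm_ne_zero_iff.mpr hza0
        field_simp
      rw [e3]
      exact hM z hz
    have hfg : f = fun z => (z - a) * dslope f a z := by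
      funext z
      have h1 := sub_smul_dslope f a z
      rw [hfa, sub_zero, smul_eq_mul] at h1
      exact h1.symm
    have hord : ∀ b : ℂ, analyticOrderAt f b = analyticOrderAt (fun z : ℂ => z - a) b + analyticOrderAt (dslope f a) b := by
      intro b
      conv_lhs => rw [hfg]
      exact analyticOrderAt_mul (by fun_prop) (hds.analyticAt b)
    have hgord : ∀ b : ℂ, analyticOrderAt (dslope f a) b ≤ analyticOrderAt g b := by
      intro b
      rw [hg, show (fun z => dslope f a z * w z) = dslope f a * w from rfl,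
        analyticOrderAt_mul (hds.analyticAt b) (hwd.analyticAt b)]
      exact le_self_add
    have hone : analyticOrderAt (fun z : ℂ => z - a) a = 1 := by
      have h3 := analyticOrderAt_centeredMonomial (𝕜 := ℂ) (z₀ := a) (n := 1)
      rw [pow_one] at h3
      exact_mod_cast h3
    have hzer : ∀ b : ℂ, b ≠ a → analyticOrderAt (fun z : ℂ => z - a) b = 0 := by
      intro b hb
      exact (AnalyticAt.analyticOrderAt_eq_zero (by fun_prop)).2 (sub_ne_zero.2 hb)
    have h1 := ih A (fun b => if b = a then m a - 1 else m b) g hgd hgM (by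
      intro b hb
      refine ⟨?_, (hA b hb).2⟩
      refine le_trans ?_ (hgord b)
      by_cases hba : b = a
      · subst hba
        rw [if_pos rfl]
        have h2 := hoa
        rw [hord, hone] at h2
        have h3 : (m b : ℕ∞) = 1 + ((m b - 1 : ℕ) : ℕ∞) := by
          have h4 : m b = 1 + (m b - 1) := by omega
          conv_lhs => rw [h4]
          push_cast
          rfl
        rw [h3] at h2
        exact (ENat.add_le_add_iff_left (by simp)).1 h2
      · rw [if_neg hba]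
        have h2 := (hA b hb).1
        rw [hord, hzer b hba, zero_add] at h2
        exact h2) (by
      have hn2 : m a + ∑ x ∈ A.erase a, m x = ∑ x ∈ A, m x := Finset.add_sum_erase A m haA
      rw [← Finset.add_sum_erase A _ haA]
      rw [if_pos rfl, Finset.sum_congr rfl (fun b hb => if_neg (Finset.ne_of_mem_erase hb))]
      show m a - 1 + ∑ x ∈ A.erase a, m x = n
      omega)
    have hca0 : ‖c - a‖ ≠ 0 := norm_ne_zero_iff.mpr (sub_ne_zero.mpr hca)
    have e4 : ‖f c‖ = ‖g c‖ * (‖c - a‖ / R) := by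
      rw [hg, hw]
      simp only
      rw [dslope_of_ne _ hca, slope_def_field, hfa, sub_zero, sub_self, mul_zero, sub_zero, norm_mul,
        norm_div, norm_div, norm_pow, Complex.norm_real, Real.norm_of_nonneg hR.le]
      field_simp
    rw [e4, pow_succ]
    have h2 : ‖c - a‖ / R ≤ r / R := by
      rw [norm_sub_rev]
      exact div_le_div_of_nonneg_right har hR.le
    calc ‖g c‖ * (‖c - a‖ / R) ≤ (M * (r / R) ^ n) * (r / R) :=
          mul_le_mul h1 h2 (by positivity) (by positivity)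
      _ = _ := by ring

/-- multiplicities near one integer -/
theorem jl (f : ℂ → ℂ) (hf : Differentiable ℂ f) (n : ℤ) (M : ℝ)
    (hM : ∀ z : ℂ, ‖z - (2 + (n : ℝ) * I)‖ = 15 / 8 → ‖f z‖ ≤ M) (hlow : 1 / 4 ≤ ‖f (2 + (n : ℝ) * I)‖)
    (A : Finset ℝ) (hA : ∀ g ∈ A, |g - n| ≤ 1 / 2) :
    ((∑ g ∈ A, analyticOrderNatAt f (1 / 2 + g * I) : ℕ) : ℝ) * Real.log ((15 / 8) / (8 / 5)) ≤ Real.log (4 * M) := by
  classical
  have hinj : Function.Injective (fun g : ℝ => (1 / 2 + g * I : ℂ)) := by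
    intro a b hab
    have := congrArg Complex.im hab
    simpa using this
  obtain ⟨N, hN⟩ : ∃ N : ℕ, N = ∑ g ∈ A, analyticOrderNatAt f (1 / 2 + g * I) := ⟨_, rfl⟩
  have hmain := blm (15 / 8) (8 / 5) M (2 + (n : ℝ) * I) (by norm_num) (by norm_num) N
    (A.image (fun g : ℝ => (1 / 2 + g * I : ℂ))) (fun z => analyticOrderNatAt f z) f hf hM (by
      intro a ha
      rw [Finset.mem_image] at ha
      obtain ⟨g, hg, rfl⟩ := ha
      refine ⟨ENat.natCast_toNat_le_self _, ?_⟩
      rw [Complex.norm_eq_sqrt_sq_add_sq]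
      apply Real.sqrt_le_iff.mpr
      constructor
      · norm_num
      · have e1 : ((1 / 2 + g * I : ℂ) - (2 + (n : ℝ) * I)).re = -(3 / 2) := by
          simp
          norm_num
        have e2 : ((1 / 2 + g * I : ℂ) - (2 + (n : ℝ) * I)).im = g - n := by
          simp
        rw [e1, e2]
        have := abs_le.mp (hA g hg)
        nlinarith) (by
      rw [Finset.sum_image (fun a _ b _ h => hinj h), hN])
  rw [← hN]
  have h1 : 1 / 4 ≤ M * ((8 / 5 : ℝ) / (15 / 8)) ^ N := hlow.trans hmain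
  have h2 : ((15 / 8 : ℝ) / (8 / 5)) ^ N ≤ 4 * M := by
    have e : ((8 / 5 : ℝ) / (15 / 8)) ^ N * ((15 / 8 : ℝ) / (8 / 5)) ^ N = 1 := by
      rw [← mul_pow]
      norm_num
    have hp : 0 < ((15 / 8 : ℝ) / (8 / 5)) ^ N := by positivity
    have := mul_le_mul_of_nonneg_right h1 hp.le
    rw [mul_assoc, e, mul_one] at this
    linarith
  rw [← Real.log_pow]
  exact Real.log_le_log (by positivity) h2

theorem circ (n : ℤ) (z : ℂ) (hz : ‖z - (2 + (n : ℝ) * I)‖ = 15 / 8) : 1 / 8 ≤ z.re ∧ ‖z‖ ≤ |(n : ℝ)| + 4 := by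
  have h1 := Complex.abs_re_le_norm (z - (2 + (n : ℝ) * I))
  have e1 : (z - (2 + (n : ℝ) * I)).re = z.re - 2 := by simp
  rw [e1, hz] at h1
  have h3 : ‖(2 + (n : ℝ) * I : ℂ)‖ ≤ 2 + |(n : ℝ)| := by
    refine (norm_add_le _ _).trans ?_
    rw [norm_mul, Complex.norm_real, Complex.norm_I, mul_one, Real.norm_eq_abs]
    norm_num
  refine ⟨by have := (abs_le.mp h1).1; linarith, ?_⟩
  have : ‖z‖ ≤ ‖z - (2 + (n : ℝ) * I)‖ + ‖(2 + (n : ℝ) * I : ℂ)‖ := by
    have h5 := norm_add_le (z - (2 + (n : ℝ) * I)) (2 + (n : ℝ) * I)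
    rwa [sub_add_cancel] at h5
  rw [hz] at this
  linarith

theorem loc_zeta : ∃ K : ℝ, 0 < K ∧ ∀ T : ℝ, 2 ≤ T → ∀ n : ℤ, |(n : ℝ)| ≤ T + 1 → ∀ A : Finset ℝ,
    (∀ g ∈ A, |g - n| ≤ 1 / 2) →
      ((∑ g ∈ A, analyticOrderNatAt riemannZeta₁ (1 / 2 + g * I) : ℕ) : ℝ) ≤ K * Real.log T := by
  obtain ⟨C, hC1, hC⟩ := DLZ.G01_growth
  have hC0 : 0 < C := by linarith
  have hq : 0 < Real.log ((15 / 8) / (8 / 5)) := Real.log_pos (by norm_num)
  have hl2 : 0 < Real.log 2 := Real.log_pos (by norm_num)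
  have hlC : 0 ≤ Real.log (128 * C) := Real.log_nonneg (by linarith)
  refine ⟨(Real.log (128 * C) / Real.log 2 + 2) / Real.log ((15 / 8) / (8 / 5)), by positivity, ?_⟩
  intro T hT n hn A hA
  have hn0 := abs_nonneg (n : ℝ)
  set M : ℝ := 2 * C * (|(n : ℝ)| + 5) ^ 2 with hM
  have hMb : ∀ z : ℂ, ‖z - (2 + (n : ℝ) * I)‖ = 15 / 8 → ‖riemannZeta₁ z‖ ≤ M := by
    intro z hz
    obtain ⟨h2, h4⟩ := circ n z hz
    have h5 : ‖z - 1‖ ≤ |(n : ℝ)| + 5 := by
      have := norm_sub_le z 1
      rw [norm_one] at this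
      linarith
    have h6 := hC z h2
    have h7 : ‖z - 1‖ * ‖z‖ ≤ (|(n : ℝ)| + 5) * (|(n : ℝ)| + 5) :=
      mul_le_mul h5 (by linarith) (norm_nonneg _) (by linarith)
    have h8 : C * (‖z - 1‖ * ‖z‖) ≤ C * ((|(n : ℝ)| + 5) * (|(n : ℝ)| + 5)) :=
      mul_le_mul_of_nonneg_left h7 hC0.le
    have h9 : 1 ≤ C * ((|(n : ℝ)| + 5) * (|(n : ℝ)| + 5)) := by
      have : 1 * 1 ≤ C * ((|(n : ℝ)| + 5) * (|(n : ℝ)| + 5)) :=
        mul_le_mul hC1 (by nlinarith) zero_le_one hC0.le
      linarith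
    rw [hM]
    nlinarith
  have h3 := jl riemannZeta₁ differentiable_riemannZeta₁ n M hMb (DLZ.G01_lower n) A hA
  have h4 : 4 * M ≤ 128 * C * T ^ 2 := by
    have h5 : |(n : ℝ)| + 5 ≤ 4 * T := by linarith
    have h6 : (|(n : ℝ)| + 5) ^ 2 ≤ (4 * T) ^ 2 := pow_le_pow_left₀ (by linarith) h5 2
    rw [hM]
    nlinarith
  have h5 : Real.log (4 * M) ≤ Real.log (128 * C) + 2 * Real.log T := by
    have h6 := Real.log_le_log (by positivity) h4
    have e : Real.log (128 * C * T ^ 2) = Real.log (128 * C) + 2 * Real.log T := by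
      rw [Real.log_mul (by positivity) (by positivity), Real.log_pow]
      norm_num
    rw [e] at h6
    exact h6
  have h6 : Real.log (128 * C) ≤ Real.log (128 * C) / Real.log 2 * Real.log T := by
    have h7 : Real.log 2 ≤ Real.log T := Real.log_le_log (by norm_num) hT
    calc Real.log (128 * C) = Real.log (128 * C) / Real.log 2 * Real.log 2 := by field_simp
      _ ≤ _ := mul_le_mul_of_nonneg_left h7 (by positivity)
  rw [div_mul_eq_mul_div, le_div_iff₀ hq]
  linarith

theorem loc_chi : ∃ K : ℝ, 0 < K ∧ ∀ (q : ℕ) [NeZero q] (χ : DirichletCharacter ℂ q), χ ≠ 1 →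
    ∀ T : ℝ, 256 * q ≤ T → ∀ n : ℤ, |(n : ℝ)| ≤ T + 1 → ∀ A : Finset ℝ,
    (∀ g ∈ A, |g - n| ≤ 1 / 2) →
      ((∑ g ∈ A, analyticOrderNatAt (DirichletCharacter.LFunction χ) (1 / 2 + g * I) : ℕ) : ℝ) ≤ K * Real.log T := by
  have hq : 0 < Real.log ((15 / 8) / (8 / 5)) := Real.log_pos (by norm_num)
  refine ⟨2 / Real.log ((15 / 8) / (8 / 5)), by positivity, ?_⟩
  intro q _ χ hχ T hT n hn A hA
  have hq0 : (1 : ℝ) ≤ q := by exact_mod_cast Nat.pos_of_ne_zero (NeZero.ne q)
  have hT2 : 2 ≤ T := by linarith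
  have hn0 := abs_nonneg (n : ℝ)
  set M : ℝ := 16 * q * (|(n : ℝ)| + 4) with hM
  have hMb : ∀ z : ℂ, ‖z - (2 + (n : ℝ) * I)‖ = 15 / 8 → ‖LX.Lf χ z‖ ≤ M := by
    intro z hz
    obtain ⟨h2, h4⟩ := circ n z hz
    refine (DLX.G01_growth hχ h2).trans ?_
    rw [hM]
    exact mul_le_mul_of_nonneg_left h4 (by positivity)
  have h3 := jl (LX.Lf χ) (LX.Lf_diff hχ) n M hMb (DLX.G01_lower χ n) A hA
  have h4 : 4 * M ≤ 256 * q * T := by
    have h5 : |(n : ℝ)| + 4 ≤ 4 * T := by linarith
    rw [hM]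
    calc 4 * (16 * (q : ℝ) * (|(n : ℝ)| + 4)) ≤ 4 * (16 * (q : ℝ) * (4 * T)) := by gcongr
      _ = _ := by ring
  have h5 : Real.log (4 * M) ≤ Real.log (256 * q) + Real.log T := by
    have h6 := Real.log_le_log (by positivity) h4
    have e : Real.log (256 * (q : ℝ) * T) = Real.log (256 * q) + Real.log T :=
      Real.log_mul (by positivity) (by positivity)
    rwa [e] at h6
  have h6 : Real.log (256 * q) ≤ Real.log T := Real.log_le_log (by positivity) hT
  have h8 : ((∑ g ∈ A, analyticOrderNatAt (DirichletCharacter.LFunction χ) (1 / 2 + g * I) : ℕ) : ℝ) *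
      Real.log ((15 / 8) / (8 / 5)) ≤ Real.log (4 * M) := h3
  rw [div_mul_eq_mul_div, le_div_iff₀ hq]
  linarith

theorem glob (μ : ℝ → ℕ) (K T : ℝ) (hK : 0 < K) (hT : 2 ≤ T)
    (hloc : ∀ n : ℤ, |(n : ℝ)| ≤ T + 1 → ∀ A : Finset ℝ, (∀ g ∈ A, |g - n| ≤ 1 / 2) →
      ((∑ g ∈ A, μ g : ℕ) : ℝ) ≤ K * Real.log T) (A : Finset ℝ) (hA : ∀ g ∈ A, |g| ≤ T) :
    ((∑ g ∈ A, μ g : ℕ) : ℝ) ≤ 3 * K * (T * Real.log T) := by
  classical
  have hlog : 0 ≤ Real.log T := Real.log_nonneg (by linarith)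
  have hround : ∀ g ∈ A, |g - (round g : ℝ)| ≤ 1 / 2 := fun g _ => abs_sub_round g
  have hT1 : ∀ g ∈ A, |(round g : ℝ)| ≤ T + 1 / 2 := by
    intro g hg
    have h1 := abs_le.1 (hA g hg)
    have h2 := abs_le.1 (hround g hg)
    rw [abs_le]
    constructor <;> linarith [h1.1, h1.2, h2.1, h2.2]
  have hfib := Finset.sum_fiberwise_of_maps_to (s := A) (t := A.image fun g => round g) (g := fun g => round g)
    (fun g hg => Finset.mem_image_of_mem _ hg) μ
  rw [← hfib]
  push_cast
  have h1 : ∀ m ∈ A.image (fun g => round g), ∑ g ∈ A.filter (fun g => round g = m), (μ g : ℝ) ≤ K * Real.log T := by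
    intro m hm
    rw [Finset.mem_image] at hm
    obtain ⟨g0, hg0, rfl⟩ := hm
    have h2 := hloc (round g0) (by have := hT1 g0 hg0; linarith) (A.filter fun g => round g = round g0) (by
      intro g hg
      rw [Finset.mem_filter] at hg
      rw [← hg.2]
      exact hround g hg.1)
    push_cast at h2
    exact h2
  refine (Finset.sum_le_sum h1).trans ?_
  rw [Finset.sum_const, nsmul_eq_mul]
  have himg : (A.image (fun g => round g)) ⊆ Finset.Icc (-⌊T + 1 / 2⌋) ⌊T + 1 / 2⌋ := by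
    intro m hm
    rw [Finset.mem_image] at hm
    obtain ⟨g, hg, rfl⟩ := hm
    have h3 := abs_le.1 (hT1 g hg)
    rw [Finset.mem_Icc]
    constructor
    · rw [neg_le, Int.le_floor]
      push_cast
      linarith [h3.1]
    · rw [Int.le_floor]
      exact h3.2
  have hic : ((A.image (fun g => round g)).card : ℝ) ≤ 3 * T := by
    have h1 : ((A.image (fun g => round g)).card : ℤ) ≤ 2 * ⌊T + 1 / 2⌋ + 1 := by
      have h2 := Finset.card_le_card himg
      rw [Int.card_Icc] at h2
      have h3 : 0 ≤ ⌊T + 1 / 2⌋ := Int.floor_nonneg.mpr (by linarith)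
      omega
    have h2 : (⌊T + 1 / 2⌋ : ℝ) ≤ T + 1 / 2 := Int.floor_le _
    have h3 : ((A.image (fun g => round g)).card : ℝ) ≤ 2 * (⌊T + 1 / 2⌋ : ℝ) + 1 := by
      exact_mod_cast h1
    linarith
  calc ((A.image (fun g => round g)).card : ℝ) * (K * Real.log T) ≤ 3 * T * (K * Real.log T) :=
        mul_le_mul_of_nonneg_right hic (by positivity)
    _ = _ := by ring

/-- the sum of the multiplicities of the critical zeros up to height `T` -/
theorem mult_up : ∃ C : ℝ, 0 < C ∧ ∀ (n : ℕ) (χ : DirichletCharacter ℂ (n + 1)), χ.IsPrimitive →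
    ∃ T₀ : ℝ, 2 ≤ T₀ ∧ ∀ T : ℝ, T₀ ≤ T → ∀ A : Finset ℝ, (∀ g ∈ A, |g| ≤ T) →
      ((∑ g ∈ A, analyticOrderNatAt (DirichletCharacter.LFunction χ) (1 / 2 + g * I) : ℕ) : ℝ) ≤
        C * (T * Real.log T) := by
  obtain ⟨K1, hK1, h1⟩ := loc_zeta
  obtain ⟨K2, hK2, h2⟩ := loc_chi
  refine ⟨max (3 * K1) (3 * K2), lt_max_of_lt_left (by positivity), fun n χ hχ => ?_⟩
  rcases Nat.eq_zero_or_pos n with rfl | hn
  · refine ⟨2, le_rfl, fun T hT A hA => ?_⟩
    have hlog : 0 ≤ Real.log T := Real.log_nonneg (by linarith)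
    have e : ∀ g : ℝ, analyticOrderNatAt (DirichletCharacter.LFunction χ) (1 / 2 + g * I) =
        analyticOrderNatAt riemannZeta₁ (1 / 2 + g * I) := by
      intro g
      have hne : (1 / 2 + g * I : ℂ) ≠ 1 := by
        intro h
        have := congrArg Complex.re h
        simp at this
      have e1 : DirichletCharacter.LFunction χ =ᶠ[𝓝 (1 / 2 + g * I : ℂ)]
          (fun z => (z - 1)⁻¹) * riemannZeta₁ := by
        filter_upwards [isOpen_compl_singleton.mem_nhds hne] with z hz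
        rw [show DirichletCharacter.LFunction χ z = riemannZeta z from
          congrFun (DirichletCharacter.LFunction_modOne_eq (χ := χ)) z, riemannZeta_eq_inv_sub_mul hz]
        rfl
      have han : AnalyticAt ℂ (fun z : ℂ => (z - 1)⁻¹) (1 / 2 + g * I) :=
        AnalyticAt.inv (by fun_prop) (sub_ne_zero.2 hne)
      unfold analyticOrderNatAt
      rw [analyticOrderAt_congr e1, analyticOrderAt_mul han (differentiable_riemannZeta₁.analyticAt _),
        han.analyticOrderAt_eq_zero.2 (inv_ne_zero (sub_ne_zero.2 hne)), zero_add]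
    simp only [e]
    refine (glob _ K1 T hK1 hT (h1 T hT) A hA).trans ?_
    exact mul_le_mul_of_nonneg_right (le_max_left _ _) (by positivity)
  · have hq0 : (1 : ℝ) ≤ ((n + 1 : ℕ) : ℝ) := by
      push_cast
      linarith [(Nat.cast_nonneg n : (0 : ℝ) ≤ n)]
    refine ⟨256 * ((n + 1 : ℕ) : ℝ), by linarith, fun T hT A hA => ?_⟩
    have hT2 : 2 ≤ T := by linarith
    have hlog : 0 ≤ Real.log T := Real.log_nonneg (by linarith)
    refine (glob _ K2 T hK2 hT2 (h2 (n + 1) χ (LX.ne_one hχ (by omega)) T hT) A hA).trans ?_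
    exact mul_le_mul_of_nonneg_right (le_max_right _ _) (by positivity)

end DL
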