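import Mathlib
import Pool.Agent.Lib.MP_0f5a55_nt.DL.Dil

/-!
Sums of translates modulo 2: every nonzero polynomial over the field with two elements divides `x^e + x^(e+N)` for some
`e` and `N > 0`; therefore a sum of translates of a function by multiples of `h` has a combination of translates which is a
sum of two translates.
-/

open Polynomial Set

namespace DL

/-- every nonzero polynomial over `ZMod 2` divides a sum of two monomials -/
theorem poly_dvd (A : (ZMod 2)[X]) (hA : A ≠ 0) :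
    ∃ (B : (ZMod 2)[X]) (e N : ℕ), 0 < N ∧ A * B = X ^ e + X ^ (e + N) := by
  have hfin : Module.Finite (ZMod 2) (AdjoinRoot A) := (AdjoinRoot.powerBasis hA).finite
  have hfin2 : Finite (AdjoinRoot A) := Module.finite_of_finite (ZMod 2)
  obtain ⟨i, j, hij, h⟩ := Finite.exists_ne_map_eq_of_infinite (fun n : ℕ => AdjoinRoot.mk A (X ^ n))
  have key : ∀ i j : ℕ, i < j → AdjoinRoot.mk A (X ^ i) = AdjoinRoot.mk A (X ^ j) →
      ∃ (B : (ZMod 2)[X]) (e N : ℕ), 0 < N ∧ A * B = X ^ e + X ^ (e + N) := by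
    intro i j hij h
    obtain ⟨B, hB⟩ := AdjoinRoot.mk_eq_mk.1 h
    refine ⟨B, i, j - i, by omega, ?_⟩
    rw [← hB, Nat.add_sub_cancel' hij.le, CharTwo.sub_eq_add]
  rcases lt_or_gt_of_ne hij with h1 | h1
  · exact key i j h1 h
  · exact key j i h1 h.symm

/-- translation by `h` -/
def tr (h : ℝ) : Module.End (ZMod 2) (ℝ → ZMod 2) where
  toFun u := fun g => u (g + h)
  map_add' _ _ := rfl
  map_smul' _ _ := rfl

theorem tr_pow (h : ℝ) (n : ℕ) (u : ℝ → ZMod 2) (g : ℝ) : (tr h ^ n) u g = u (g + n * h) := by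
  induction n generalizing u g with
  | zero => simp
  | succ n ih =>
    rw [pow_succ, Module.End.mul_apply, ih]
    show u (g + n * h + h) = _
    congr 1
    push_cast
    ring

theorem aeval_tr (h : ℝ) (A : (ZMod 2)[X]) (u : ℝ → ZMod 2) (g : ℝ) :
    (aeval (tr h) A) u g = ∑ n ∈ A.support, u (g + n * h) := by
  have h2 : ∀ x : ZMod 2, x ≠ 0 → x = 1 := by decide
  conv_lhs => rw [A.as_sum_support]
  rw [map_sum, LinearMap.sum_apply, Finset.sum_apply]
  refine Finset.sum_congr rfl fun n hn => ?_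
  rw [h2 _ (mem_support_iff.1 hn), aeval_monomial, map_one, one_mul, tr_pow]

/-- a combination of translates of the sum of the translates by `j h`, `j ∈ J`, is a sum of two translates -/
theorem translates (J : Finset ℤ) (hJ : J.Nonempty) :
    ∃ (s : Finset ℕ) (e : ℤ) (N : ℕ), 0 < N ∧ ∀ (u : ℝ → ZMod 2) (h g : ℝ),
      ∑ b ∈ s, ∑ j ∈ J, u (g + b * h + j * h) = u (g + e * h) + u (g + (e + N) * h) := by
  classical
  obtain ⟨m, hm, hmin⟩ := J.exists_min_image id hJ
  set A : (ZMod 2)[X] := ∑ j ∈ J, X ^ (j - m).toNat with hAdef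
  have hcoeff : A.coeff 0 = 1 := by
    rw [hAdef, finsetSum_coeff, Finset.sum_eq_single m]
    · simp
    · intro j hj hjm
      have h1 : m ≤ j := hmin j hj
      rw [coeff_X_pow, if_neg]
      omega
    · intro h
      exact absurd hm h
  have hA : A ≠ 0 := by
    intro h
    rw [h] at hcoeff
    simp at hcoeff
  obtain ⟨B, e, N, hN, hAB⟩ := poly_dvd A hA
  refine ⟨B.support, m + e, N, hN, fun u h g => ?_⟩
  have h1 : (aeval (tr h) (B * A)) u (g + m * h) = (aeval (tr h) (X ^ e + X ^ (e + N) : (ZMod 2)[X])) u (g + m * h) := by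
    rw [mul_comm, hAB]
  rw [map_mul, Module.End.mul_apply, aeval_tr, map_add, LinearMap.add_apply, Pi.add_apply, map_pow, map_pow, aeval_X,
    tr_pow, tr_pow] at h1
  have h3 : ∀ x : ℝ, (aeval (tr h) A) u x = ∑ j ∈ J, u (x + (j - m) * h) := by
    intro x
    rw [hAdef, map_sum, LinearMap.sum_apply, Finset.sum_apply]
    refine Finset.sum_congr rfl fun j hj => ?_
    have h4 : m ≤ j := hmin j hj
    rw [map_pow, aeval_X, tr_pow]
    congr 2
    have h5 : (((j - m).toNat : ℤ) : ℝ) = ((j - m : ℤ) : ℝ) := by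
      rw [Int.toNat_of_nonneg (by omega)]
    push_cast at h5
    rw [h5]
  simp only [h3] at h1
  convert h1 using 1
  · refine Finset.sum_congr rfl fun b _ => Finset.sum_congr rfl fun j _ => ?_
    congr 1
    ring
  · push_cast
    congr 2 <;> ring

/-- from translates back to the function -/
theorem tr_count (f : ℝ → ℤ) (hfin : ∀ T : ℝ, {g : ℝ | 0 < g ∧ g ≤ T ∧ Odd (f g)}.Finite) (s : Finset ℕ) (h : ℝ)
    (hh : 0 < h) (c T₀ : ℝ) (hc : 0 < c) (hT₀ : 2 ≤ T₀)
    (H : ∀ T : ℝ, T₀ ≤ T → c * (T * Real.log T) ≤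
      ∑ b ∈ s, ({g : ℝ | 0 < g ∧ g ≤ T ∧ Odd (f (g + b * h))}.ncard : ℝ)) :
    ∃ T₁ : ℝ, 2 ≤ T₁ ∧ ∀ T : ℝ, T₁ ≤ T →
      c / (4 * (s.card + 1)) * (T * Real.log T) ≤ ({g : ℝ | 0 < g ∧ g ≤ T ∧ Odd (f g)}.ncard : ℝ) := by
  obtain ⟨β, hβ⟩ : ∃ β : ℕ, ∀ b ∈ s, b ≤ β := ⟨s.sup id, fun b hb => Finset.le_sup (f := id) hb⟩
  have hβh : 0 ≤ β * h := by positivity
  refine ⟨2 * (β * h) + 2 * T₀, by linarith, fun T hT => ?_⟩
  have hT4 : 4 ≤ T := by linarith
  have h1 := H (T - β * h) (by linarith)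
  have h2 : ∀ b ∈ s, ({g : ℝ | 0 < g ∧ g ≤ T - β * h ∧ Odd (f (g + b * h))}.ncard : ℝ) ≤
      ({g : ℝ | 0 < g ∧ g ≤ T ∧ Odd (f g)}.ncard : ℝ) := by
    intro b hb
    have hb1 : (b : ℝ) * h ≤ β * h := mul_le_mul_of_nonneg_right (by exact_mod_cast hβ b hb) hh.le
    have hb0 : 0 ≤ (b : ℝ) * h := by positivity
    have h3 : (fun g : ℝ => g + b * h) '' {g : ℝ | 0 < g ∧ g ≤ T - β * h ∧ Odd (f (g + b * h))} ⊆
        {g : ℝ | 0 < g ∧ g ≤ T ∧ Odd (f g)} := by
      rintro x ⟨g, ⟨g0, gT, go⟩, rfl⟩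
      exact ⟨by positivity, by simp only; linarith, go⟩
    have h4 := Set.ncard_le_ncard h3 (hfin T)
    rw [Set.ncard_image_of_injective _ (add_left_injective _)] at h4
    exact_mod_cast h4
  have h3 := h1.trans (Finset.sum_le_sum h2)
  rw [Finset.sum_const, nsmul_eq_mul] at h3
  set n : ℝ := ({g : ℝ | 0 < g ∧ g ≤ T ∧ Odd (f g)}.ncard : ℝ) with hn
  have hn0 : 0 ≤ n := Nat.cast_nonneg _
  have hT2 : T / 2 ≤ T - β * h := by linarith
  have hlogT : 0 ≤ Real.log T := Real.log_nonneg (by linarith)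
  have hlog : Real.log T / 2 ≤ Real.log (T - β * h) := by
    have h5 : Real.log (T / 2) ≤ Real.log (T - β * h) := Real.log_le_log (by linarith) hT2
    have h6 : Real.log T / 2 ≤ Real.log (T / 2) := by
      rw [Real.log_div (by linarith) (by norm_num)]
      have h7 : Real.log 4 ≤ Real.log T := Real.log_le_log (by norm_num) hT4
      have h8 : Real.log 4 = 2 * Real.log 2 := by
        rw [show (4 : ℝ) = 2 ^ 2 by norm_num, Real.log_pow]
        norm_num
      linarith
    linarith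
  have h5 : T * Real.log T / 4 ≤ (T - β * h) * Real.log (T - β * h) := by
    have h6 : T / 2 * (Real.log T / 2) ≤ (T - β * h) * Real.log (T - β * h) :=
      mul_le_mul hT2 hlog (by positivity) (by linarith)
    linarith
  have h6 : c * (T * Real.log T / 4) ≤ s.card * n := (mul_le_mul_of_nonneg_left h5 hc.le).trans h3
  have h7 : (s.card : ℝ) * n ≤ (s.card + 1) * n := by linarith
  rw [div_mul_eq_mul_div, div_le_iff₀ (by positivity)]
  linarith

end DL
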