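import Mathlib
import Pool.Agent.Lib.MP_0f5a55_nt.DL.Count
import Pool.Agent.Lib.MP_0f5a55_nt.DL.Dil

/-!
Upper bound, with an absolute constant, for the number of `g ∈ (0, T]` at which `1/2 + i(g + a)` is a zero of odd order
of `L(s, χ)`.
-/

open Complex Filter Topology Set

namespace DL

/-- critical ordinates of a primitive character -/
theorem gam_up : ∃ C : ℝ, 0 < C ∧ ∀ (n : ℕ) (χ : DirichletCharacter ℂ (n + 1)), χ.IsPrimitive →
    ∃ T₀ : ℝ, 2 ≤ T₀ ∧ ∀ T : ℝ, T₀ ≤ T →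
      ({g : ℝ | -T ≤ g ∧ g ≤ T ∧ DirichletCharacter.LFunction χ (1 / 2 + g * I) = 0}).Finite ∧
      ({g : ℝ | -T ≤ g ∧ g ≤ T ∧ DirichletCharacter.LFunction χ (1 / 2 + g * I) = 0}.ncard : ℝ) ≤
        C * (T * Real.log T) := by
  obtain ⟨C1, T1, hC1, hT1, h1⟩ := DLZ.Gam_count
  obtain ⟨C2, hC2, h2⟩ := DLX.Gam_count
  refine ⟨max C1 C2, lt_max_of_lt_left hC1, fun n χ hχ => ?_⟩
  rcases Nat.eq_zero_or_pos n with rfl | hn
  · refine ⟨T1, hT1, fun T hT => ?_⟩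
    have hT0 : 0 < T := by linarith
    have hlog : 0 ≤ Real.log T := Real.log_nonneg (by linarith)
    have e : {g : ℝ | -T ≤ g ∧ g ≤ T ∧ DirichletCharacter.LFunction χ (1 / 2 + g * I) = 0} = LZ.Gam ∩ Icc (-T) T := by
      ext g
      have e1 : DirichletCharacter.LFunction χ (1 / 2 + g * I) = riemannZeta (1 / 2 + g * I) :=
        congrFun (DirichletCharacter.LFunction_modOne_eq (χ := χ)) _
      rw [Set.mem_ofPred_eq, e1]
      exact ⟨fun h => ⟨h.2.2, h.1, h.2.1⟩, fun h => ⟨h.2.1, h.2.2, h.1⟩⟩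
    rw [e]
    refine ⟨(h1 T hT).1, (h1 T hT).2.trans ?_⟩
    rw [mul_assoc]
    exact mul_le_mul_of_nonneg_right (le_max_left _ _) (by positivity)
  · obtain ⟨T0, hT0, h⟩ := h2 (n + 1) χ (LX.ne_one hχ (by omega))
    refine ⟨T0, hT0, fun T hT => ?_⟩
    have hT0 : 0 < T := by linarith
    have hlog : 0 ≤ Real.log T := Real.log_nonneg (by linarith)
    have e : {g : ℝ | -T ≤ g ∧ g ≤ T ∧ DirichletCharacter.LFunction χ (1 / 2 + g * I) = 0} = LX.Gam χ ∩ Icc (-T) T := by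
      ext g
      exact ⟨fun h => ⟨h.2.2, h.1, h.2.1⟩, fun h => ⟨h.2.1, h.2.2, h.1⟩⟩
    rw [e]
    refine ⟨(h T hT).1, (h T hT).2.trans ?_⟩
    rw [mul_assoc]
    exact mul_le_mul_of_nonneg_right (le_max_right _ _) (by positivity)

/-- odd zeros of one shifted character -/
theorem odd_up : ∃ C : ℝ, 0 < C ∧ ∀ (n : ℕ) (χ : DirichletCharacter ℂ (n + 1)), χ.IsPrimitive → ∀ a : ℝ,
    ∃ T₀ : ℝ, 2 ≤ T₀ ∧ ∀ T : ℝ, T₀ ≤ T →
      {g : ℝ | 0 < g ∧ g ≤ T ∧ Odd (analyticOrderNatAt (DirichletCharacter.LFunction χ) (1/2 + (g + a : ℝ) * I))}.Finite ∧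
      ({g : ℝ | 0 < g ∧ g ≤ T ∧ Odd (analyticOrderNatAt (DirichletCharacter.LFunction χ)
        (1/2 + (g + a : ℝ) * I))}.ncard : ℝ) ≤ C * (T * Real.log T) := by
  obtain ⟨C, hC, H⟩ := gam_up
  refine ⟨4 * C, by positivity, fun n χ hχ a => ?_⟩
  obtain ⟨T0, hT0, h⟩ := H n χ hχ
  refine ⟨max T0 |a|, hT0.trans (le_max_left _ _), fun T hT => ?_⟩
  have h1 : T0 ≤ T := (le_max_left _ _).trans hT
  have h2 : |a| ≤ T := (le_max_right _ _).trans hT
  have h3 := abs_le.1 h2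
  have hT2 : 2 ≤ T := hT0.trans h1
  obtain ⟨hf, hn⟩ := h (2 * T) (by linarith)
  have hsub : (fun g : ℝ => g + a) '' {g : ℝ | 0 < g ∧ g ≤ T ∧ Odd (analyticOrderNatAt (DirichletCharacter.LFunction χ)
      (1/2 + (g + a : ℝ) * I))} ⊆ {g : ℝ | -(2 * T) ≤ g ∧ g ≤ 2 * T ∧ DirichletCharacter.LFunction χ (1 / 2 + g * I) = 0} := by
    rintro _ ⟨g, ⟨g0, gT, ho⟩, rfl⟩
    refine ⟨by simp only; linarith, by simp only; linarith, ?_⟩
    by_contra hne
    have e0 : analyticOrderNatAt (DirichletCharacter.LFunction χ) (1/2 + (g + a : ℝ) * I) = 0 := by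
      unfold analyticOrderNatAt
      by_cases han : AnalyticAt ℂ (DirichletCharacter.LFunction χ) (1/2 + (g + a : ℝ) * I)
      · rw [han.analyticOrderAt_eq_zero.2 hne]
        rfl
      · rw [analyticOrderAt_of_not_analyticAt han]
        rfl
    rw [e0] at ho
    exact (Nat.not_odd_iff_even.2 Even.zero) ho
  have hinj : Function.Injective fun g : ℝ => g + a := add_left_injective a
  have hfin := (hf.subset hsub).of_finite_image hinj.injOn
  refine ⟨hfin, ?_⟩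
  have h4 : ({g : ℝ | 0 < g ∧ g ≤ T ∧ Odd (analyticOrderNatAt (DirichletCharacter.LFunction χ)
      (1/2 + (g + a : ℝ) * I))}.ncard : ℝ) ≤ ({g : ℝ | -(2 * T) ≤ g ∧ g ≤ 2 * T ∧
        DirichletCharacter.LFunction χ (1 / 2 + g * I) = 0}.ncard : ℝ) := by
    rw [← Set.ncard_image_of_injective _ hinj]
    exact_mod_cast Set.ncard_le_ncard hsub hf
  refine h4.trans (hn.trans ?_)
  have hl : Real.log (2 * T) ≤ 2 * Real.log T := by
    rw [Real.log_mul (by norm_num) (by linarith)]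
    have := Real.log_le_log (by norm_num) hT2
    linarith
  have hT0' : 0 < T := by linarith
  calc C * (2 * T * Real.log (2 * T)) ≤ C * (2 * T * (2 * Real.log T)) := by gcongr
    _ = 4 * C * (T * Real.log T) := by ring

end DL
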